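import Pool.Agent.K3h84.GD.Stm
import Pool.Agent.Y729.FW.Surj

/-!
# GD brick TRANS: the transformation formulas of the three functions
-/

set_option autoImplicit false

namespace Pool.Agent.K3h35.GD.Trans

open UpperHalfPlane ModularForm ModularGroup
open Pool.Agent.K3h84.GD
open scoped MatrixGroups

lemma coe_dbl (τ : ℍ) : ((dbl τ : ℍ) : ℂ) = 2 * (τ : ℂ) := rfl
lemma coe_hlf (τ : ℍ) : ((hlf τ : ℍ) : ℂ) = (τ : ℂ) * (1 / 2 : ℝ) := rfl
lemma coe_hlf1 (τ : ℍ) : ((hlf1 τ : ℍ) : ℂ) = ((τ : ℂ) + 1) * (1 / 2 : ℝ) := rfl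

lemma coe_T (τ : ℍ) : ((T • τ : ℍ) : ℂ) = (τ : ℂ) + 1 := by
  rw [modular_T_smul, coe_vadd, add_comm]
  push_cast
  rfl

lemma coe_S (τ : ℍ) : ((S • τ : ℍ) : ℂ) = -(τ : ℂ)⁻¹ := by
  rw [coe_specialLinearGroup_apply]
  simp [S, neg_div]

lemma disc_T (τ : ℍ) : discriminant (T • τ) = discriminant τ := by
  rw [Pool.Agent.Y729.FW.disc_smul]
  have : denom T τ = 1 := (ModularGroup.denom_apply T τ).trans (by simp [T])
  rw [this, one_zpow, one_mul]

lemma disc_S (τ : ℍ) : discriminant (S • τ) = (τ : ℂ) ^ 12 * discriminant τ := by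
  rw [Pool.Agent.Y729.FW.disc_smul, denom_S]
  rfl

/-- the matrix `(1, -1; 2, -1)` -/
def gm : SL(2, ℤ) := ⟨!![1, -1; 2, -1], by simp [Matrix.det_fin_two]⟩

lemma denom_gm (τ : ℍ) : denom gm τ = 2 * (τ : ℂ) - 1 :=
  (ModularGroup.denom_apply gm τ).trans (by simp [gm]; ring)

theorem main : S_TRANS := by
  intro τ
  have h0 := ne_zero τ
  have hT0 := disc_T τ
  have hS0 := disc_S τ
  have hD : discriminant τ ≠ 0 := discriminant_ne_zero τ
  -- the points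
  have t1 : dbl (T • τ) = T • T • dbl τ := by
    ext1
    rw [coe_dbl, coe_T, coe_T, coe_T, coe_dbl]
    ring
  have t2 : hlf (T • τ) = hlf1 τ := by
    ext1
    rw [coe_hlf, coe_hlf1, coe_T]
  have t3 : hlf1 (T • τ) = T • hlf τ := by
    ext1
    rw [coe_T, coe_hlf, coe_hlf1, coe_T]
    push_cast
    ring
  have s1 : dbl (S • τ) = S • hlf τ := by
    ext1
    rw [coe_dbl, coe_S, coe_S, coe_hlf]
    push_cast
    field_simp
  have s2 : hlf (S • τ) = S • dbl τ := by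
    ext1
    rw [coe_hlf, coe_S, coe_S, coe_dbl]
    push_cast
    field_simp
  have s3 : hlf1 (S • τ) = gm • hlf1 τ := by
    ext1
    rw [coe_hlf1, coe_S, coe_specialLinearGroup_apply, coe_hlf1]
    have e0 : ((gm 1 0 : ℤ) : ℂ) = 2 := by simp [gm]
    have e1 : ((gm 1 1 : ℤ) : ℂ) = -1 := by simp [gm]
    have e2 : ((gm 0 0 : ℤ) : ℂ) = 1 := by simp [gm]
    have e3 : ((gm 0 1 : ℤ) : ℂ) = -1 := by simp [gm]
    simp only [algebraMap_int_eq, eq_intCast, Complex.ofReal_intCast, e0, e1, e2, e3]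
    have h1 : (2 : ℂ) * (((τ : ℂ) + 1) * ((1 / 2 : ℝ) : ℂ)) + -1 = τ := by push_cast; ring
    rw [h1]
    push_cast
    field_simp
    ring
  have d3 : discriminant (gm • hlf1 τ) = (τ : ℂ) ^ 12 * discriminant (hlf1 τ) := by
    rw [Pool.Agent.Y729.FW.disc_smul, denom_gm, coe_hlf1]
    have : (2 : ℂ) * (((τ : ℂ) + 1) * ((1 / 2 : ℝ) : ℂ)) - 1 = τ := by
      push_cast
      ring
    rw [this]
    rfl
  refine ⟨⟨?_, ?_, ?_⟩, ?_, ?_, ?_⟩
  · unfold fa
    rw [t1, disc_T, disc_T, hT0]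
  · unfold fb fc
    rw [t2, hT0]
  · unfold fb fc
    rw [t3, disc_T, hT0]
  · unfold fa fb
    rw [s1, disc_S, hS0, coe_hlf]
    push_cast
    field_simp
    norm_num
  · unfold fa fb
    rw [s2, disc_S, hS0, coe_dbl]
    field_simp
    norm_num
    ring
  · unfold fc
    rw [s3, d3, hS0]
    field_simp

end Pool.Agent.K3h35.GD.Trans
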